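import Mathlib
import Pool.Agent.Helper626.PellIdx.Core

namespace Pool.Agent.Results.MP_b95629_nt.SameParity

open Pool.Agent.Helper626.PellIdx

theorem x_mul_add {d : ℤ} (a : Pell.Solution₁ d) (m n : ℕ) :
    2 * (a ^ (m + n)).x * (a ^ n).x = (a ^ (m + 2 * n)).x + (a ^ m).x := by
  have e1 : a ^ (m + 2 * n) = a ^ (m + n) * a ^ n := by
    rw [← pow_add]; congr 1; ring
  have e2 : a ^ m = a ^ (m + n) * (a ^ n)⁻¹ := by
    rw [pow_add, mul_assoc, mul_inv_cancel, mul_one]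
  rw [e1, Pell.Solution₁.x_mul]
  conv_rhs => rw [e2]
  rw [Pell.Solution₁.x_mul, Pell.Solution₁.x_inv, Pell.Solution₁.y_inv]
  ring

theorem result (x y z : ℤ) (hx : 1 < x) (hxy : x < y)
    (h : (x ^ 2 - 1) * (y ^ 2 - 1) = (z ^ 2 - 1) ^ 2) :
    ∃ (d : ℤ) (a : Pell.Solution₁ d) (i j : ℕ),
      Squarefree d ∧ Pell.IsFundamental a ∧ 0 < i ∧ i < j ∧
      x = (a ^ i).x ∧ y = (a ^ j).x ∧ (Odd (i + j) ∨ 11 * i < j) := by
  -- squarefree part of `x ^ 2 - 1`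
  obtain ⟨N, hN⟩ : ∃ N : ℕ, (N : ℤ) = x ^ 2 - 1 := by
    refine ⟨(x ^ 2 - 1).toNat, Int.toNat_of_nonneg ?_⟩
    nlinarith
  obtain ⟨D, f, hDf, hD⟩ := Nat.sq_mul_squarefree N
  have hDfZ : (f : ℤ) ^ 2 * D = x ^ 2 - 1 := by
    rw [← hN, ← hDf]; push_cast; ring
  have hpos : 0 < x ^ 2 - 1 := by nlinarith
  have hf0 : (f : ℤ) ≠ 0 := by
    intro h0; rw [h0] at hDfZ; simp at hDfZ; linarith
  have hD0 : (0 : ℤ) < D := by
    have h0 : (D : ℤ) ≠ 0 := by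
      intro h0; rw [h0] at hDfZ; simp at hDfZ; linarith
    have : (0 : ℤ) ≤ D := Int.natCast_nonneg D
    omega
  have hDsq : Squarefree (D : ℤ) := Int.squarefree_natCast.2 hD
  -- `y ^ 2 - 1 = D g ^ 2`
  obtain ⟨g, hg⟩ : ∃ g : ℤ, y ^ 2 - 1 = D * g ^ 2 := by
    have h1 : (f : ℤ) ^ 2 ∣ (z ^ 2 - 1) ^ 2 := by
      rw [← h, ← hDfZ]
      exact ⟨D * (y ^ 2 - 1), by ring⟩
    have h2 : (f : ℤ) ∣ z ^ 2 - 1 := (Int.pow_dvd_pow_iff (by norm_num)).1 h1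
    obtain ⟨w, hw⟩ := h2
    have h3 : (D : ℤ) * (y ^ 2 - 1) = w ^ 2 := by
      have h4 : (f : ℤ) ^ 2 * (D * (y ^ 2 - 1)) = (f : ℤ) ^ 2 * w ^ 2 := by
        rw [hw, ← hDfZ] at h
        linear_combination h
      exact mul_left_cancel₀ (pow_ne_zero 2 hf0) h4
    have h5 : (D : ℤ) ∣ w := by
      have : (D : ℤ) ∣ w ^ 2 := ⟨y ^ 2 - 1, h3.symm⟩
      exact (hDsq.dvd_pow_iff_dvd (by norm_num)).1 this
    obtain ⟨g, hgw⟩ := h5
    refine ⟨g, ?_⟩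
    rw [hgw] at h3
    have h6 : (D : ℤ) * (y ^ 2 - 1) = D * (D * g ^ 2) := by rw [h3]; ring
    exact mul_left_cancel₀ hD0.ne' h6
  let A : Pell.Solution₁ (D : ℤ) := Pell.Solution₁.mk x (f : ℤ) (by rw [mul_comm] at hDfZ; linarith)
  let B : Pell.Solution₁ (D : ℤ) := Pell.Solution₁.mk y |g| (by rw [sq_abs]; linarith)
  have hAx : A.x = x := Pell.Solution₁.x_mk _ _ _
  have hAy : A.y = f := Pell.Solution₁.y_mk _ _ _
  have hBx : B.x = y := Pell.Solution₁.x_mk _ _ _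
  have hBy : B.y = |g| := Pell.Solution₁.y_mk _ _ _
  have hns : ¬ IsSquare (D : ℤ) := Pell.Solution₁.d_nonsquare_of_one_lt_x (a := A) (by rw [hAx]; exact hx)
  obtain ⟨a, ha⟩ := Pell.IsFundamental.exists_of_not_isSquare hD0 hns
  obtain ⟨i, hi⟩ := ha.eq_pow_of_nonneg (a := A) (by rw [hAx]; linarith)
    (by rw [hAy]; exact Int.natCast_nonneg f)
  obtain ⟨j, hj⟩ := ha.eq_pow_of_nonneg (a := B) (by rw [hBx]; linarith)
    (by rw [hBy]; exact abs_nonneg g)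
  have hxi : x = (a ^ i).x := by rw [← hi, hAx]
  have hyj : y = (a ^ j).x := by rw [← hj, hBx]
  -- the sequence
  have h0 : (fun n : ℕ => (a ^ n).x) 0 = 1 := by simp
  have h1 : 2 ≤ (fun n : ℕ => (a ^ n).x) 1 := by
    have := ha.1
    simp only [pow_one]
    omega
  have hmul : ∀ m n, 2 * (fun n : ℕ => (a ^ n).x) (m + n) * (fun n : ℕ => (a ^ n).x) n
      = (fun n : ℕ => (a ^ n).x) (m + 2 * n) + (fun n : ℕ => (a ^ n).x) m :=
    fun m n => x_mul_add a m n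
  have hi0 : 0 < i := by
    rcases Nat.eq_zero_or_pos i with h2 | h2
    · rw [h2] at hxi; simp at hxi; omega
    · exact h2
  have hij : i < j := by
    by_contra hcon
    push Not at hcon
    have := mono (T := fun n : ℕ => (a ^ n).x) h0 h1 hmul hcon
    rw [← hxi, ← hyj] at this
    linarith
  refine ⟨D, a, i, j, hDsq, ha, hi0, hij, hxi, hyj, ?_⟩
  by_contra hcon
  push Not at hcon
  obtain ⟨hpar, hle⟩ := hcon
  rw [Nat.not_odd_iff_even] at hpar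
  obtain ⟨q, hq⟩ : ∃ q, j = i + 2 * q := by
    obtain ⟨r, hr⟩ := hpar
    exact ⟨r - i, by omega⟩
  subst hq
  have hq0 : 0 < q := by omega
  have hq5 : q ≤ 5 * i := by omega
  -- K
  have hK : (a ^ (q + i)).x ^ 2 - (a ^ q).x ^ 2 = D * ((a ^ i).y * (a ^ (i + 2 * q)).y) := by
    have e1 : a ^ (2 * (q + i)) = a ^ (i + 2 * q) * a ^ i := by
      rw [← pow_add]; congr 1; ring
    have e2 : a ^ (2 * q) = a ^ (i + 2 * q) * (a ^ i)⁻¹ := by
      rw [pow_add, mul_comm (a ^ i), mul_assoc, mul_inv_cancel, mul_one]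
    have t1 := two (T := fun n : ℕ => (a ^ n).x) h0 hmul (q + i)
    have t2 := two (T := fun n : ℕ => (a ^ n).x) h0 hmul q
    rw [e1, Pell.Solution₁.x_mul] at t1
    rw [e2, Pell.Solution₁.x_mul, Pell.Solution₁.x_inv, Pell.Solution₁.y_inv] at t2
    linarith
  have hKsq : ((a ^ (q + i)).x ^ 2 - (a ^ q).x ^ 2) ^ 2 = (z ^ 2 - 1) ^ 2 := by
    rw [hK, ← h, hxi, hyj, ← Pell.Solution₁.prop_y, ← Pell.Solution₁.prop_y]
    ring
  have hTq := growth (T := fun n : ℕ => (a ^ n).x) h0 h1 hmul q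
  have hTp := mono (T := fun n : ℕ => (a ^ n).x) h0 h1 hmul (show q + 1 ≤ q + i by omega)
  have hK3 : 3 ≤ (a ^ (q + i)).x ^ 2 - (a ^ q).x ^ 2 := by nlinarith [hTq.1, hTq.2]
  rcases sq_eq_sq_iff_eq_or_eq_neg.1 hKsq with h2 | h2
  · exact core (T := fun n : ℕ => (a ^ n).x) h0 h1 hmul i q hi0 hq0 hq5 z (by linarith)
  · nlinarith [sq_nonneg z]

end Pool.Agent.Results.MP_b95629_nt.SameParity
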